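import Pool.Agent.Run7.h778.MC.MOB

/-! Cycles of positive Möbius maps with parameters: the positive periodic points depend smoothly
on the parameters (for project MC, helper568, MP_a29257_gt). -/

namespace Run7.h590.MC

open Run7.h778.MC

section

variable {V E : Type*} (A : Equiv.Perm V) (N : E → V → M2)

/-- product along the cycle -/
noncomputable def Cy : ℕ → E → V → M2
  | 0, e, p => N e p
  | k + 1, e, p => N e p * Cy k e (A p)

variable {N}

theorem Cy_pos {e : E} (h : ∀ p, Pos (N e p)) (k : ℕ) : ∀ p, Pos (Cy A N k e p) := by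
  induction k with
  | zero => exact fun p => h p
  | succ k ih => exact fun p => (h p).mul (ih _)

theorem Cy_comm (e : E) (k : ℕ) : ∀ p, N e p * Cy A N k e (A p) =
    Cy A N k e p * N e ((A ^ (k + 1)) p) := by
  induction k with
  | zero => intro p; simp [Cy]
  | succ k ih =>
    intro p
    have e1 : (A ^ (k + 1 + 1)) p = (A ^ (k + 1)) (A p) := by
      rw [pow_succ, Equiv.Perm.mul_apply]
    rw [e1]
    simp only [Cy]
    rw [ih (A p), Matrix.mul_assoc]

theorem Cy_contDiffOn [NormedAddCommGroup E] [NormedSpace ℝ E] {s : Set E} {n : WithTop ℕ∞}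
    (h : ∀ p i j, ContDiffOn ℝ n (fun e => N e p i j) s) (k : ℕ) : ∀ (p : V) (i j : Fin 2),
    ContDiffOn ℝ n (fun e => Cy A N k e p i j) s := by
  induction k with
  | zero => exact fun p i j => h p i j
  | succ k ih =>
    intro p i j
    simp only [Cy, Matrix.mul_apply, Fin.sum_univ_two]
    exact ((h p i 0).mul (ih _ 0 j)).add ((h p i 1).mul (ih _ 1 j))

theorem fixp_contDiffOn [NormedAddCommGroup E] [NormedSpace ℝ E] {s : Set E} {n : WithTop ℕ∞}
    {M : E → M2} (h : ∀ i j, ContDiffOn ℝ n (fun e => M e i j) s) (hp : ∀ e ∈ s, Pos (M e)) :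
    ContDiffOn ℝ n (fun e => fixp (M e)) s := by
  unfold fixp
  refine ContDiffOn.div ?_ ?_ ?_
  · refine ((h 0 0).sub (h 1 1)).add (ContDiffOn.sqrt ?_ fun e he => (disc_pos (hp e he)).ne')
    exact (((h 0 0).sub (h 1 1)).pow 2).add (contDiffOn_const.mul ((h 1 0).mul (h 0 1)))
  · exact contDiffOn_const.mul (h 1 0)
  · intro e he
    have := hp e he 1 0
    positivity

end

/-- Positive periodic points of cycles of positive Möbius maps: existence, uniqueness and smooth
dependence on parameters. -/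
theorem exists_cycle {V E : Type*} [Fintype V] [NormedAddCommGroup E] [NormedSpace ℝ E]
    (A : Equiv.Perm V) (N : E → V → M2) (s : Set E) (n : WithTop ℕ∞)
    (h : ∀ p i j, ContDiffOn ℝ n (fun e => N e p i j) s) (hp : ∀ e ∈ s, ∀ p, Pos (N e p)) :
    ∃ a : E → V → ℝ, (∀ p, ContDiffOn ℝ n (fun e => a e p) s) ∧
      ∀ e, (∀ p, Pos (N e p)) → (∀ p, 0 < a e p) ∧ (∀ p, a e p = act (N e p) (a e (A p))) ∧
        ∀ b : V → ℝ, (∀ p, 0 < b p) → (∀ p, b p = act (N e p) (b (A p))) → b = a e := by
  classical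
  obtain ⟨k, hk⟩ : ∃ k, A ^ (k + 1) = 1 := by
    refine ⟨orderOf A - 1, ?_⟩
    have : 0 < orderOf A := orderOf_pos A
    rw [Nat.sub_add_cancel this]
    exact pow_orderOf_eq_one A
  refine ⟨fun e p => fixp (Cy A N k e p), fun p => ?_, fun e he => ⟨fun p => ?_, fun p => ?_, ?_⟩⟩
  · exact fixp_contDiffOn (fun i j => Cy_contDiffOn A h k p i j)
      fun e he => Cy_pos A (hp e he) k p
  · exact fixp_pos (Cy_pos A he k p)
  · symm
    have hP : ∀ p, Pos (Cy A N k e p) := Cy_pos A he k
    apply eq_fixp (hP p) (act_pos (he p) (fixp_pos (hP (A p))))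
    rw [← act_mul (hP p) (he p) (fixp_pos (hP (A p)))]
    have e1 := Cy_comm A (N := N) e k p
    rw [hk, Equiv.Perm.one_apply] at e1
    rw [← e1, act_mul (he p) (hP (A p)) (fixp_pos (hP (A p))), act_fixp (hP (A p))]
  · intro b hb hbe
    have hP : ∀ k p, Pos (Cy A N k e p) := fun k => Cy_pos A he k
    have key : ∀ n : ℕ, ∀ p, b p = act (Cy A N n e p) (b ((A ^ (n + 1)) p)) := by
      intro n
      induction n with
      | zero =>
        intro p
        simpa [Cy] using hbe p
      | succ n ih =>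
        intro p
        have e1 : (A ^ (n + 1 + 1)) p = (A ^ (n + 1)) (A p) := by
          rw [pow_succ, Equiv.Perm.mul_apply]
        rw [e1]
        simp only [Cy]
        rw [act_mul (he p) (hP n _) (hb _), ← ih (A p)]
        exact hbe p
    funext p
    have e1 := key k p
    rw [hk, Equiv.Perm.one_apply] at e1
    exact eq_fixp (hP k p) (hb p) e1.symm

end Run7.h590.MC
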