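import Pool.Agent.Run7.h568.MC.Iface2
import Pool.Agent.Run7.h568.MC.ZLemmas
import Pool.Agent.Run7.h590.MC.Cyc

/-! Explicit functions of the linear coordinates (project MC, helper568, MP_a29257_gt).

For `v ∈ Dom P` : `rE v z` is the positive solution of `E (ZA z) = e^{v.1 (ZA z)} (1 + E z)` if
`Zh z`, `E (ZA z) = E z` otherwise; `rmuZ, rLamZ, rThe, rmu, rLam` are the gauge quantities. -/

set_option linter.unusedSectionVars false

namespace Run7.h590.MC

open Real Matrix Run7.h568.MC Run7.h568.MC.Pattern Run7.h778.MC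

variable {V : Type*} [Fintype V] {P : Pattern V}

/-! ### the period of `ZA` -/

theorem per_pos : 0 < per P := Nat.factorial_pos _

theorem ZA_per (z : P.Z) : ZA^[per P] z = z := by
  classical
  have h : (Equiv.ofBijective (ZA : P.Z → P.Z) ZA_bijective) ^ (per P) = 1 := by
    unfold per
    rw [← Fintype.card_perm]
    exact pow_card_eq_one
  have h2 : (ZA : P.Z → P.Z)^[per P] = ⇑((Equiv.ofBijective (ZA : P.Z → P.Z) ZA_bijective) ^ (per P)) := by
    rw [← Equiv.Perm.iterate_eq_pow]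
    rfl
  rw [h2, h]
  rfl

theorem exists_Zh (z : P.Z) : ∃ i < per P, Zh (ZA^[i] z) := by
  obtain ⟨i, hi⟩ : ∃ i, Zh (ZA^[i] z) := by
    by_contra hc
    push Not at hc
    rcases z with p | p
    · obtain ⟨n, hn⟩ := P.alpha_face' p
      have key : ∀ n : ℕ, ZA^[n] (Sum.inl p : P.Z) = Sum.inl (P.A^[n] p) := by
        intro n
        induction n with
        | zero => rfl
        | succ n ih =>
          have h1 := hc n
          rw [ih, Zh_inl, not_not] at h1
          rw [Function.iterate_succ_apply', Function.iterate_succ_apply', ih,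
            ZA_inl_not (not_diag_of_quad h1)]
      have h2 := hc n
      rw [key, Zh_inl] at h2
      exact h2 hn
    · exact hc 0 trivial
  refine ⟨i % per P, Nat.mod_lt _ per_pos, ?_⟩
  have h1 : Function.IsPeriodicPt (ZA : P.Z → P.Z) (per P) z := ZA_per z
  rw [h1.iterate_mod_apply]
  exact hi

/-! ### the linear recursion -/

/-- the factor of the linear recursion -/
noncomputable def ea (v : P.W) (z : P.Z) : ℝ := Real.exp (if Zh z then v.1 (ZA z) else 0)

/-- `1` at the corners -/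
noncomputable def hz (z : P.Z) : ℝ := if Zh z then 1 else 0

noncomputable def pr (v : P.W) : ℕ → P.Z → ℝ
  | 0, _ => 1
  | n + 1, z => ea v (ZA^[n] z) * pr v n z

noncomputable def su (v : P.W) : ℕ → P.Z → ℝ
  | 0, _ => 0
  | n + 1, z => ea v (ZA^[n] z) * (su v n z + hz (ZA^[n] z))

theorem ea_pos (v : P.W) (z : P.Z) : 0 < ea v z := Real.exp_pos _

theorem hz_nonneg (z : P.Z) : 0 ≤ hz z := by unfold hz; split_ifs <;> norm_num

theorem pr_pos (v : P.W) (n : ℕ) (z : P.Z) : 0 < pr v n z := by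
  induction n with
  | zero => exact one_pos
  | succ n ih => exact mul_pos (ea_pos v _) ih

theorem su_nonneg (v : P.W) (n : ℕ) (z : P.Z) : 0 ≤ su v n z := by
  induction n with
  | zero => exact le_refl _
  | succ n ih => exact mul_nonneg (ea_pos v _).le (add_nonneg ih (hz_nonneg _))

theorem su_pos_of (v : P.W) (n : ℕ) (z : P.Z) (h : ∃ i < n, Zh (ZA^[i] z)) : 0 < su v n z := by
  induction n with
  | zero => obtain ⟨i, hi, -⟩ := h; omega
  | succ n ih =>
    obtain ⟨i, hi, h1⟩ := h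
    refine mul_pos (ea_pos v _) ?_
    rcases Nat.lt_succ_iff_lt_or_eq.1 hi with h2 | h2
    · exact add_pos_of_pos_of_nonneg (ih ⟨i, h2, h1⟩) (hz_nonneg _)
    · rw [h2] at h1
      refine add_pos_of_nonneg_of_pos (su_nonneg v n z) ?_
      unfold hz
      rw [if_pos h1]
      exact one_pos

theorem su_pos (v : P.W) (z : P.Z) : 0 < su v (per P) z := su_pos_of v _ z (exists_Zh z)

theorem pr_eq (v : P.W) (n : ℕ) (z : P.Z) : pr v n z =
    Real.exp (∑ i ∈ Finset.range n, if Zh (ZA^[i] z) then v.1 (ZA^[i + 1] z) else 0) := by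
  induction n with
  | zero => simp [pr]
  | succ n ih =>
    have e : pr v (n + 1) z = ea v (ZA^[n] z) * pr v n z := rfl
    rw [Finset.sum_range_succ, Real.exp_add, ← ih, e]
    unfold ea
    rw [Function.iterate_succ_apply', mul_comm]

theorem pr_per (v : P.W) (z : P.Z) : pr v (per P) z = Real.exp (cyc P v z) := pr_eq v _ z

theorem pr_lt_one_iff (v : P.W) (z : P.Z) : pr v (per P) z < 1 ↔ cyc P v z < 0 := by
  rw [pr_per, Real.exp_lt_one_iff]

/-- iterating a solution of the linear recursion -/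
theorem iter_rec {v : P.W} {F : P.Z → ℝ} (h : ∀ z, F (ZA z) = ea v z * (F z + hz z)) (n : ℕ)
    (z : P.Z) : F (ZA^[n] z) = pr v n z * F z + su v n z := by
  induction n with
  | zero => simp [pr, su]
  | succ n ih =>
    have e : pr v (n + 1) z = ea v (ZA^[n] z) * pr v n z := rfl
    have e2 : su v (n + 1) z = ea v (ZA^[n] z) * (su v n z + hz (ZA^[n] z)) := rfl
    rw [Function.iterate_succ_apply', h, ih, e, e2]
    ring

theorem pr_succ' (v : P.W) (n : ℕ) (z : P.Z) : pr v (n + 1) z = pr v n (ZA z) * ea v z := by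
  induction n with
  | zero => simp [pr]
  | succ n ih =>
    have e : pr v (n + 1 + 1) z = ea v (ZA^[n + 1] z) * pr v (n + 1) z := rfl
    have e2 : pr v (n + 1) (ZA z) = ea v (ZA^[n] (ZA z)) * pr v n (ZA z) := rfl
    rw [e, ih, e2, Function.iterate_succ_apply]
    ring

theorem su_succ' (v : P.W) (n : ℕ) (z : P.Z) : su v (n + 1) z =
    pr v n (ZA z) * ea v z * hz z + su v n (ZA z) := by
  induction n with
  | zero => simp [pr, su]
  | succ n ih =>
    have e : su v (n + 1 + 1) z = ea v (ZA^[n + 1] z) * (su v (n + 1) z + hz (ZA^[n + 1] z)) := rfl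
    have e2 : su v (n + 1) (ZA z) =
      ea v (ZA^[n] (ZA z)) * (su v n (ZA z) + hz (ZA^[n] (ZA z))) := rfl
    have e3 : pr v (n + 1) (ZA z) = ea v (ZA^[n] (ZA z)) * pr v n (ZA z) := rfl
    rw [e, ih, e2, e3, Function.iterate_succ_apply]
    ring

theorem pr_per_ZA (v : P.W) (z : P.Z) : pr v (per P) (ZA z) = pr v (per P) z := by
  have h1 := pr_succ' v (per P) z
  have h2 : pr v (per P + 1) z = ea v (ZA^[per P] z) * pr v (per P) z := rfl
  rw [ZA_per] at h2
  have h3 := ea_pos v z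
  rw [h2, mul_comm] at h1
  exact (mul_right_cancel₀ h3.ne' h1).symm

/-- the positive solution of the linear recursion -/
noncomputable def rE (v : P.W) (z : P.Z) : ℝ := su v (per P) z / (1 - pr v (per P) z)

theorem one_sub_pr {v : P.W} (hv : v ∈ Dom P) (z : P.Z) : 0 < 1 - pr v (per P) z :=
  sub_pos.2 ((pr_lt_one_iff v z).2 (hv z))

theorem rE_pos {v : P.W} (hv : v ∈ Dom P) (z : P.Z) : 0 < rE v z :=
  div_pos (su_pos v z) (one_sub_pr hv z)

theorem rE_rec {v : P.W} (hv : v ∈ Dom P) (z : P.Z) : rE v (ZA z) = ea v z * (rE v z + hz z) := by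
  have h1 := su_succ' v (per P) z
  have h2 : su v (per P + 1) z = ea v (ZA^[per P] z) * (su v (per P) z + hz (ZA^[per P] z)) := rfl
  rw [ZA_per, h1, pr_per_ZA] at h2
  have h3 := one_sub_pr hv z
  unfold rE
  rw [pr_per_ZA]
  have h4 : su v (per P) (ZA z) = ea v z * (su v (per P) z + hz z * (1 - pr v (per P) z)) := by
    linarith
  rw [h4]
  field_simp

theorem rE_ZA {v : P.W} (hv : v ∈ Dom P) {z : P.Z} (h : Zh z) :
    rE v (ZA z) = Real.exp (v.1 (ZA z)) * (1 + rE v z) := by
  rw [rE_rec hv]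
  unfold ea hz
  rw [if_pos h, if_pos h, add_comm]

theorem rE_ZA_not {v : P.W} (hv : v ∈ Dom P) {z : P.Z} (h : ¬ Zh z) :
    rE v (ZA z) = rE v z := by
  rw [rE_rec hv]
  unfold ea hz
  rw [if_neg h, if_neg h, Real.exp_zero, one_mul, add_zero]

/-- a positive solution of the linear recursion exists only for `v ∈ Dom P`, and is `rE v` -/
theorem eq_rE {v : P.W} {F : P.Z → ℝ} (hF : ∀ z, 0 < F z)
    (h1 : ∀ z, Zh z → F (ZA z) = Real.exp (v.1 (ZA z)) * (1 + F z))
    (h2 : ∀ z, ¬ Zh z → F (ZA z) = F z) : v ∈ Dom P ∧ F = rE v := by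
  have h : ∀ z, F (ZA z) = ea v z * (F z + hz z) := by
    intro z
    unfold ea hz
    split_ifs with h3
    · rw [h1 z h3, add_comm]
    · rw [h2 z h3, Real.exp_zero, one_mul, add_zero]
  have key : ∀ z, F z * (1 - pr v (per P) z) = su v (per P) z := by
    intro z
    have := iter_rec h (per P) z
    rw [ZA_per] at this
    linarith
  have hd : v ∈ Dom P := by
    intro z
    rw [← pr_lt_one_iff]
    have h4 := su_pos v z
    rw [← key] at h4
    have := pos_of_mul_pos_right h4 (hF z).le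
    linarith
  refine ⟨hd, funext fun z => ?_⟩
  unfold rE
  rw [eq_div_iff (one_sub_pr hd z).ne']
  exact key z

/-! ### smoothness -/

theorem cd_fst (z : P.Z) : ContDiff ℝ 2 (fun v : P.W => v.1 z) :=
  (contDiff_apply ℝ ℝ z).comp contDiff_fst

theorem cd_snd (p : V) : ContDiff ℝ 2 (fun v : P.W => v.2 p) :=
  (contDiff_apply ℝ ℝ p).comp contDiff_snd

theorem cd_ea (z : P.Z) : ContDiff ℝ 2 (fun v : P.W => ea v z) := by
  unfold ea
  refine Real.contDiff_exp.comp ?_
  by_cases h : Zh z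
  · simp only [h, if_true]
    exact cd_fst _
  · simp only [h, if_false]
    exact contDiff_const

theorem cd_pr (n : ℕ) (z : P.Z) : ContDiff ℝ 2 (fun v : P.W => pr v n z) := by
  induction n with
  | zero => exact contDiff_const
  | succ n ih => exact (cd_ea _).mul ih

theorem cd_su (n : ℕ) (z : P.Z) : ContDiff ℝ 2 (fun v : P.W => su v n z) := by
  induction n with
  | zero => exact contDiff_const
  | succ n ih => exact (cd_ea _).mul (ih.add contDiff_const)

theorem cd_rE (z : P.Z) : ContDiffOn ℝ 2 (fun v : P.W => rE v z) (Dom P) :=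
  (cd_su _ z).contDiffOn.div (contDiff_const.sub (cd_pr _ z)).contDiffOn
    fun _ hv => (one_sub_pr hv z).ne'

theorem isOpen_Dom : IsOpen (Dom P) := by
  have h : Dom P = ⋂ z, {v : P.W | pr v (per P) z < 1} := by
    ext v
    rw [Set.mem_iInter]
    exact forall_congr' fun z => (pr_lt_one_iff v z).symm
  rw [h]
  exact isOpen_iInter_of_finite fun z => isOpen_lt (cd_pr _ z).continuous continuous_const

/-! ### the gauge quantities -/

noncomputable def rmuZ (v : P.W) (z : P.Z) : ℝ := if Zh z then 1 + 1 / rE v z else 1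

noncomputable def rLamZ (v : P.W) (z : P.Z) : ℝ := Real.exp (v.1 z) / (rE v z * rE v (Zk z))

noncomputable def rThe (v : P.W) (p : V) : ℝ :=
  Real.exp (v.2 p) / (rE v (Sum.inl p) * rE v (Sum.inl (P.rho p)))

noncomputable def rmu (v : P.W) (p : V) : ℝ :=
  rmuZ v (Sum.inl p) * (if h : P.Diag p then rmuZ v (Sum.inr ⟨p, h⟩) else 1)

noncomputable def rLam (v : P.W) (p : V) : ℝ := rLamZ v (Sum.inl p)

section pos

variable {v : P.W} (hv : v ∈ Dom P)

include hv

theorem rmuZ_gt {z : P.Z} (h : Zh z) : 1 < rmuZ v z := by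
  unfold rmuZ
  rw [if_pos h]
  have := rE_pos hv z
  have : 0 < 1 / rE v z := by positivity
  linarith

omit hv in
theorem rmuZ_not {z : P.Z} (h : ¬ Zh z) : rmuZ v z = 1 := by
  unfold rmuZ
  rw [if_neg h]

theorem rmuZ_ge (z : P.Z) : 1 ≤ rmuZ v z := by
  by_cases h : Zh z
  · exact (rmuZ_gt hv h).le
  · rw [rmuZ_not h]

theorem rLamZ_pos (z : P.Z) : 0 < rLamZ v z :=
  div_pos (Real.exp_pos _) (mul_pos (rE_pos hv _) (rE_pos hv _))

theorem rThe_pos (p : V) : 0 < rThe v p :=
  div_pos (Real.exp_pos _) (mul_pos (rE_pos hv _) (rE_pos hv _))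

theorem rmu_ge (p : V) : 1 ≤ rmu v p := by
  unfold rmu
  have h1 := rmuZ_ge hv (Sum.inl p)
  split_ifs with h
  · have h2 := rmuZ_ge hv (Sum.inr ⟨p, h⟩)
    nlinarith
  · linarith

theorem rmu_pos (p : V) : 0 < rmu v p := one_pos.trans_le (rmu_ge hv p)

theorem rLam_pos (p : V) : 0 < rLam v p := rLamZ_pos hv _

end pos

theorem cd_rmuZ (z : P.Z) : ContDiffOn ℝ 2 (fun v : P.W => rmuZ v z) (Dom P) := by
  unfold rmuZ
  by_cases h : Zh z
  · simp only [h, if_true]
    exact contDiffOn_const.add (contDiffOn_const.div (cd_rE z) fun v hv => (rE_pos hv z).ne')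
  · simp only [h, if_false]
    exact contDiffOn_const

theorem cd_rLamZ (z : P.Z) : ContDiffOn ℝ 2 (fun v : P.W => rLamZ v z) (Dom P) :=
  (Real.contDiff_exp.comp (cd_fst z)).contDiffOn.div ((cd_rE z).mul (cd_rE _))
    fun _ hv => (mul_pos (rE_pos hv _) (rE_pos hv _)).ne'

theorem cd_rThe (p : V) : ContDiffOn ℝ 2 (fun v : P.W => rThe v p) (Dom P) :=
  (Real.contDiff_exp.comp (cd_snd p)).contDiffOn.div ((cd_rE _).mul (cd_rE _))
    fun _ hv => (mul_pos (rE_pos hv _) (rE_pos hv _)).ne'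

theorem cd_rmu (p : V) : ContDiffOn ℝ 2 (fun v : P.W => rmu v p) (Dom P) := by
  unfold rmu
  by_cases h : P.Diag p
  · simp only [h, dif_pos]
    exact (cd_rmuZ _).mul (cd_rmuZ _)
  · simp only [h, dif_neg, not_false_iff]
    exact (cd_rmuZ _).mul contDiffOn_const

theorem cd_rLam (p : V) : ContDiffOn ℝ 2 (fun v : P.W => rLam v p) (Dom P) := cd_rLamZ _

/-! ### `R`, the periodic point -/

/-- the permutation `p ↦ rho (kap p)` -/
noncomputable def rk (P : Pattern V) : Equiv.Perm V :=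
  Equiv.ofBijective (fun p => P.rho (P.kap p)) (P.rho_bij.comp P.kap_bij)

theorem rk_apply (p : V) : rk P p = P.rho (P.kap p) := rfl

/-- matrix of the recursion for `R` -/
noncomputable def rN (v : P.W) (p : V) : M2 :=
  !![1 + rLam v p, rThe v (P.rho (P.kap p)); 1, rThe v (P.rho (P.kap p))]

theorem rN_pos {v : P.W} (hv : v ∈ Dom P) (p : V) : Pos (rN v p) := by
  have h1 := rLam_pos hv p
  have h2 := rThe_pos hv (P.rho (P.kap p))
  intro i j
  fin_cases i <;> fin_cases j
  · simp [rN]; linarith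
  · simpa [rN] using h2
  · simp [rN]
  · simpa [rN] using h2

theorem cd_rN (p : V) (i j : Fin 2) : ContDiffOn ℝ 2 (fun v : P.W => rN v p i j) (Dom P) := by
  fin_cases i <;> fin_cases j
  · simpa [rN] using contDiffOn_const.add (cd_rLam p)
  · simpa [rN] using cd_rThe _
  · simpa [rN] using contDiffOn_const
  · simpa [rN] using cd_rThe _

theorem exists_R (P : Pattern V) : ∃ a : P.W → V → ℝ,
    (∀ p, ContDiffOn ℝ 2 (fun v => a v p) (Dom P)) ∧
    ∀ v : P.W, (∀ p, Pos (rN v p)) → (∀ p, 0 < a v p) ∧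
      (∀ p, a v p = act (rN v p) (a v (rk P p))) ∧
      ∀ b : V → ℝ, (∀ p, 0 < b p) → (∀ p, b p = act (rN v p) (b (rk P p))) → b = a v :=
  exists_cycle (rk P) rN (Dom P) 2 cd_rN fun v hv p => rN_pos hv p

/-- the periodic point -/
noncomputable def rR (v : P.W) : V → ℝ := Classical.choose (exists_R P) v

theorem cd_rR (p : V) : ContDiffOn ℝ 2 (fun v : P.W => rR v p) (Dom P) :=
  (Classical.choose_spec (exists_R P)).1 p

theorem act_rN (v : P.W) (p : V) (x : ℝ) : act (rN v p) x =
    ((1 + rLam v p) * x + rThe v (P.rho (P.kap p))) / (x + rThe v (P.rho (P.kap p))) := by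
  simp [act, rN]

section pos

variable {v : P.W} (hv : v ∈ Dom P)

include hv

theorem rR_pos (p : V) : 0 < rR v p :=
  ((Classical.choose_spec (exists_R P)).2 v (rN_pos hv)).1 p

theorem rR_rec (p : V) : rR v p =
    ((1 + rLam v p) * rR v (P.rho (P.kap p)) + rThe v (P.rho (P.kap p))) /
      (rR v (P.rho (P.kap p)) + rThe v (P.rho (P.kap p))) := by
  have h := ((Classical.choose_spec (exists_R P)).2 v (rN_pos hv)).2.1 p
  rw [act_rN, rk_apply] at h
  exact h

theorem eq_rR {b : V → ℝ} (h1 : ∀ p, 0 < b p) (h2 : ∀ p, b p =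
    ((1 + rLam v p) * b (P.rho (P.kap p)) + rThe v (P.rho (P.kap p))) /
      (b (P.rho (P.kap p)) + rThe v (P.rho (P.kap p)))) : b = rR v :=
  ((Classical.choose_spec (exists_R P)).2 v (rN_pos hv)).2.2 b h1 fun p => by
    rw [act_rN, rk_apply]
    exact h2 p

end pos

noncomputable def rS (v : P.W) (p : V) : ℝ := rThe v p / rR v (P.rho p)

section pos

variable {v : P.W} (hv : v ∈ Dom P)

include hv

theorem rS_pos (p : V) : 0 < rS v p := div_pos (rThe_pos hv p) (rR_pos hv _)

/-- `(R - 1) (S (kap p) + 1) = Λ`, if `Θ` is `rho`-symmetric at `kap p` -/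
theorem rR_sub (p : V) : (rR v p - 1) * (rThe v (P.rho (P.kap p)) / rR v (P.rho (P.kap p)) + 1) =
    rLam v p := by
  have h1 := rR_rec hv p
  have h2 := rR_pos hv (P.rho (P.kap p))
  have h3 := rThe_pos hv (P.rho (P.kap p))
  rw [h1]
  field_simp
  ring

theorem rR_gt (p : V) : 1 < rR v p := by
  have h1 := rR_sub hv p
  have h2 := rR_pos hv (P.rho (P.kap p))
  have h3 := rThe_pos hv (P.rho (P.kap p))
  have h4 := rLam_pos hv p
  rw [← h1] at h4
  have h5 : 0 < rThe v (P.rho (P.kap p)) / rR v (P.rho (P.kap p)) + 1 := by positivity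
  have := pos_of_mul_pos_left h4 h5.le
  linarith

theorem rR_lt (p : V) : rR v p < 1 + rLam v p := by
  have h1 := rR_sub hv p
  have h2 := rR_pos hv (P.rho (P.kap p))
  have h3 := rThe_pos hv (P.rho (P.kap p))
  have h4 := rR_gt hv p
  have h5 : 0 < rThe v (P.rho (P.kap p)) / rR v (P.rho (P.kap p)) := by positivity
  nlinarith

end pos

theorem cd_rS (p : V) : ContDiffOn ℝ 2 (fun v : P.W => rS v p) (Dom P) :=
  (cd_rThe p).div (cd_rR _) fun _ hv => (rR_pos hv _).ne'

/-! ### angles and lengths -/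

noncomputable def rT (v : P.W) (p : V) : ℝ := rR v p / rS v p

noncomputable def rEE (v : P.W) (p : V) : ℝ := (rR v p - 1) / (rS v p + 1)

noncomputable def rt (v : P.W) (p : V) : ℝ := Real.sqrt (rT v p)

noncomputable def rθ (v : P.W) (p : V) : ℝ := 2 * Real.arctan (rt v p)

noncomputable def ry (v : P.W) (p : V) : ℝ :=
  -Real.log (rEE v (P.rho p) / (rt v p * rt v (P.B p)))

noncomputable def rx (v : P.W) (p : V) : ℝ :=
  Real.log (rmu v p * (rt v (P.A p) * rS v (P.A p)) / (rt v p * rS v p))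

section pos

variable {v : P.W} (hv : v ∈ Dom P)

include hv

theorem rT_pos (p : V) : 0 < rT v p := div_pos (rR_pos hv p) (rS_pos hv p)

theorem rEE_pos (p : V) : 0 < rEE v p :=
  div_pos (by linarith [rR_gt hv p]) (by linarith [rS_pos hv p])

theorem rEE_lt (p : V) : rEE v p < rT v p := by
  unfold rEE rT
  have h1 := rR_gt hv p
  have h2 := rS_pos hv p
  rw [div_lt_div_iff₀ (by linarith) h2]
  nlinarith

theorem rt_pos (p : V) : 0 < rt v p := Real.sqrt_pos.2 (rT_pos hv p)

theorem rt_sq (p : V) : rt v p ^ 2 = rT v p := Real.sq_sqrt (rT_pos hv p).le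

end pos

theorem cd_rT (p : V) : ContDiffOn ℝ 2 (fun v : P.W => rT v p) (Dom P) :=
  (cd_rR p).div (cd_rS p) fun _ hv => (rS_pos hv _).ne'

theorem cd_rEE (p : V) : ContDiffOn ℝ 2 (fun v : P.W => rEE v p) (Dom P) :=
  ((cd_rR p).sub contDiffOn_const).div ((cd_rS p).add contDiffOn_const)
    fun _ hv => by
      have := rS_pos hv p
      positivity

theorem cd_rt (p : V) : ContDiffOn ℝ 2 (fun v : P.W => rt v p) (Dom P) :=
  (cd_rT p).sqrt fun _ hv => (rT_pos hv p).ne'

theorem cd_rθ (p : V) : ContDiffOn ℝ 2 (fun v : P.W => rθ v p) (Dom P) :=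
  contDiffOn_const.mul (Real.contDiff_arctan.comp_contDiffOn (cd_rt p))

theorem cd_ry (p : V) : ContDiffOn ℝ 2 (fun v : P.W => ry v p) (Dom P) := by
  refine (ContDiffOn.log ((cd_rEE _).div ((cd_rt _).mul (cd_rt _)) fun v hv =>
    (mul_pos (rt_pos hv _) (rt_pos hv _)).ne') fun v hv => ?_).neg
  exact (div_pos (rEE_pos hv _) (mul_pos (rt_pos hv _) (rt_pos hv _))).ne'

theorem cd_rx (p : V) : ContDiffOn ℝ 2 (fun v : P.W => rx v p) (Dom P) := by
  refine ContDiffOn.log (((cd_rmu p).mul ((cd_rt _).mul (cd_rS _))).div ((cd_rt _).mul (cd_rS _))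
    fun v hv => (mul_pos (rt_pos hv _) (rS_pos hv _)).ne') fun v hv => ?_
  exact (div_pos (mul_pos (rmu_pos hv p) (mul_pos (rt_pos hv _) (rS_pos hv _)))
    (mul_pos (rt_pos hv _) (rS_pos hv _))).ne'

end Run7.h590.MC
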