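import Pool.Agent.Run7.h568.MC.LIN3
import Pool.Agent.Run7.h590.MC.Raw

/-! Piece JS1: lengths and angles are smooth functions of the linear coordinates (project MC,
helper568, MP_a29257_gt). -/

set_option linter.unusedSectionVars false

namespace Run7.h590.MC

open Real Matrix Run7.h568.MC Run7.h568.MC.Pattern Run7.h778.MC

variable {V : Type*} [Fintype V] {P : Pattern V}

section ident

variable {m : HypMetric P} (hg : GF m) (hzz : GFZ m) (hl : S_LIN1 P)

include hg hzz hl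

theorem lin_Dom_rE : m.lin ∈ Dom P ∧ (fun z => Real.exp (m.U z)) = rE m.lin := by
  obtain ⟨-, h2, h3, -⟩ := hl m hg hzz
  refine eq_rE (fun z => Real.exp_pos _) (fun z h => ?_) fun z h => ?_
  · rw [h2 z h, Real.exp_add, Real.exp_log (by positivity)]
    rfl
  · rw [h3 z h]

theorem lin_Dom : m.lin ∈ Dom P := (lin_Dom_rE hg hzz hl).1

theorem rE_lin (z : P.Z) : rE m.lin z = Real.exp (m.U z) :=
  (congrFun (lin_Dom_rE hg hzz hl).2 z).symm

theorem rmuZ_lin (z : P.Z) : rmuZ m.lin z = m.muZ z := by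
  obtain ⟨-, -, -, h4⟩ := hl m hg hzz
  unfold rmuZ
  split_ifs with h
  · rw [rE_lin hg hzz hl, h4 z h, Real.exp_neg, one_div]
  · exact (hzz.muZ_quad z h).symm

theorem rLamZ_lin (z : P.Z) : rLamZ m.lin z = m.LamZ z := by
  unfold rLamZ
  rw [rE_lin hg hzz hl, rE_lin hg hzz hl]
  change Real.exp (m.lZ z) / _ = _
  unfold HypMetric.lZ
  rw [Real.exp_add, Real.exp_add, Real.exp_log (hzz.LamZ_pos z)]
  field_simp

theorem rThe_lin (p : V) : rThe m.lin p = m.The p := by
  unfold rThe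
  rw [rE_lin hg hzz hl, rE_lin hg hzz hl]
  change Real.exp (m.w p) / _ = _
  unfold HypMetric.w
  rw [Real.exp_add, Real.exp_add, Real.exp_log (The_pos hg p)]
  field_simp

theorem rmu_lin (p : V) : rmu m.lin p = m.mu p := by
  unfold rmu
  split_ifs with h
  · rw [rmuZ_lin hg hzz hl, rmuZ_lin hg hzz hl]
    exact hzz.mu_split p h
  · rw [rmuZ_lin hg hzz hl, mul_one]
    exact if_neg h

theorem rLam_lin (p : V) : rLam m.lin p = m.Lam p := rLamZ_lin hg hzz hl (Sum.inl p)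

theorem rR_lin (p : V) : rR m.lin p = m.RR p := by
  refine (congrFun (eq_rR (lin_Dom hg hzz hl) (fun p => RR_pos hg p) fun p => ?_) p).symm
  rw [rLam_lin hg hzz hl, rThe_lin hg hzz hl]
  have h1 : m.Lam p = (m.RR p - 1) * (m.SS (P.kap p) + 1) := rfl
  have h2 : m.The (P.rho (P.kap p)) = m.RR (P.rho (P.kap p)) * m.SS (P.kap p) := by
    unfold HypMetric.The
    rw [P.rho_rho]
  have h3 := RR_pos hg (P.rho (P.kap p))
  have h4 := SS_pos hg (P.kap p)
  rw [h1, h2]
  have h5 : m.RR (P.rho (P.kap p)) + m.RR (P.rho (P.kap p)) * m.SS (P.kap p) ≠ 0 := by positivity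
  field_simp
  ring

theorem rS_lin (p : V) : rS m.lin p = m.SS p := by
  unfold rS
  rw [rThe_lin hg hzz hl, rR_lin hg hzz hl, ← The_rho hg p]
  unfold HypMetric.The
  rw [P.rho_rho]
  have h3 := RR_pos hg (P.rho p)
  field_simp

theorem rT_lin (p : V) : rT m.lin p = m.TT p := by
  unfold rT
  rw [rR_lin hg hzz hl, rS_lin hg hzz hl, RR_eq]
  have h3 := SS_pos hg p
  field_simp

theorem rEE_lin (p : V) : rEE m.lin p = m.EE p := by
  unfold rEE
  rw [rR_lin hg hzz hl, rS_lin hg hzz hl]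
  have h1 := SS_pos hg p
  have h2 := hg.E_lt p
  have h3 := TT_pos hg p
  unfold HypMetric.RR HypMetric.SS
  have h4 : m.TT p - m.EE p ≠ 0 := by linarith
  have h5 : (1 + m.EE p) / (m.TT p - m.EE p) + 1 = (1 + m.TT p) / (m.TT p - m.EE p) := by
    field_simp
    ring
  have h6 : m.TT p * (1 + m.EE p) / (m.TT p - m.EE p) - 1 =
      m.EE p * (1 + m.TT p) / (m.TT p - m.EE p) := by
    field_simp
    ring
  rw [h5, h6, div_div_div_cancel_right₀ h4]
  have h7 : 1 + m.TT p ≠ 0 := by positivity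
  field_simp

theorem rt_lin (p : V) : rt m.lin p = m.t p := by
  unfold rt
  rw [rT_lin hg hzz hl]
  exact Real.sqrt_sq (hg.t_pos p).le

theorem rθ_lin (p : V) : rθ m.lin p = m.θ p := by
  unfold rθ
  rw [rt_lin hg hzz hl]
  have h1 := m.θ_pos p
  have h2 := m.θ_lt p
  unfold HypMetric.t
  rw [Real.arctan_tan (by linarith) (by linarith)]
  ring

theorem ry_lin (p : V) : ry m.lin p = m.y p := by
  unfold ry
  rw [rEE_lin hg hzz hl, rt_lin hg hzz hl, rt_lin hg hzz hl]
  unfold HypMetric.EE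
  rw [P.rho_rho, hg.t_rho, P.kap_rho]
  have h1 := hg.t_pos p
  have h2 := hg.t_pos (P.B p)
  have h3 : Real.exp (-m.y p) * m.t p * m.t (P.B p) / (m.t p * m.t (P.B p)) =
      Real.exp (-m.y p) := by
    field_simp
  rw [h3, Real.log_exp, neg_neg]

theorem rx_lin (p : V) : rx m.lin p = m.x p := by
  unfold rx
  rw [rmu_lin hg hzz hl, rt_lin hg hzz hl, rt_lin hg hzz hl, rS_lin hg hzz hl,
    rS_lin hg hzz hl]
  have h1 := hg.t_pos p
  have h2 := hg.t_pos (P.A p)
  have h3 := SS_pos hg p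
  have h4 := SS_pos hg (P.A p)
  have h5 : m.mu p * (m.t (P.A p) * m.SS (P.A p)) / (m.t p * m.SS p) = Real.exp (m.x p) := by
    unfold HypMetric.mu
    field_simp
  rw [h5, Real.log_exp]

end ident

/-- piece JS1 -/
theorem js1 (hA : S_GA P) (hB : S_GB P) (hl : S_LIN1 P) : S_JS1 P :=
  ⟨rx, ry, rθ, cd_rx, cd_ry, cd_rθ, fun m =>
    ⟨funext (rx_lin (hA m) (hB m (hA m)) hl), funext (ry_lin (hA m) (hB m (hA m)) hl),
      funext (rθ_lin (hA m) (hB m (hA m)) hl)⟩⟩

end Run7.h590.MC
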