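import Pool.Agent.Run7.h590.MC.JS1

/-! Piece REF: metrics for which all `β`-edges are long (project MC, helper568, MP_a29257_gt). -/

set_option linter.unusedSectionVars false

namespace Run7.h590.MC

open Real Matrix Run7.h568.MC Run7.h568.MC.Pattern Run7.h778.MC

variable {V : Type*} [Fintype V] {P : Pattern V}

theorem Lam_ge {m : HypMetric P} (hg : GF m) (p : V) :
    4 * Real.exp (-(m.y (P.rho p))) ≤ m.Lam p := by
  have hE := hg.E_pos p
  have h1 := hg.E_lt p
  have h2 := hg.E_lt (P.kap p)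
  rw [hg.E_kap] at h2
  have ht := hg.t_pos p
  have ht' := hg.t_pos (P.kap p)
  have hex := Real.exp_pos (-(m.y (P.rho p)))
  have e1 : m.Lam p = m.EE p * (1 + m.TT p) * (1 + m.TT (P.kap p)) /
      ((m.TT p - m.EE p) * (m.TT (P.kap p) - m.EE p)) := by
    have d1 : m.TT p - m.EE p ≠ 0 := by linarith
    have d2 : m.TT (P.kap p) - m.EE p ≠ 0 := by linarith
    unfold HypMetric.Lam HypMetric.RR HypMetric.SS
    rw [hg.E_kap]
    field_simp
    ring
  have e2 : m.EE p = Real.exp (-(m.y (P.rho p))) * m.t p * m.t (P.kap p) := rfl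
  have e3 : m.TT p = m.t p ^ 2 := rfl
  have e4 : m.TT (P.kap p) = m.t (P.kap p) ^ 2 := rfl
  rw [e1, le_div_iff₀ (mul_pos (by linarith) (by linarith))]
  have h3 : (m.TT p - m.EE p) * (m.TT (P.kap p) - m.EE p) ≤ m.TT p * m.TT (P.kap p) := by
    apply mul_le_mul (by linarith) (by linarith) (by linarith) (by linarith)
  have h4 : 4 * Real.exp (-(m.y (P.rho p))) * (m.TT p * m.TT (P.kap p)) ≤
      m.EE p * (1 + m.TT p) * (1 + m.TT (P.kap p)) := by
    rw [e2, e3, e4]
    have a1 : 2 * m.t p ≤ 1 + m.t p ^ 2 := by nlinarith [sq_nonneg (m.t p - 1)]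
    have a2 : 2 * m.t (P.kap p) ≤ 1 + m.t (P.kap p) ^ 2 := by
      nlinarith [sq_nonneg (m.t (P.kap p) - 1)]
    have a3 : (2 * m.t p) * (2 * m.t (P.kap p)) ≤
        (1 + m.t p ^ 2) * (1 + m.t (P.kap p) ^ 2) :=
      mul_le_mul a1 a2 (by positivity) (by positivity)
    have a4 : 0 < Real.exp (-(m.y (P.rho p))) * m.t p * m.t (P.kap p) := by positivity
    have a5 := mul_le_mul_of_nonneg_left a3 a4.le
    nlinarith
  have h5 : 4 * Real.exp (-(m.y (P.rho p))) * ((m.TT p - m.EE p) * (m.TT (P.kap p) - m.EE p)) ≤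
      4 * Real.exp (-(m.y (P.rho p))) * (m.TT p * m.TT (P.kap p)) :=
    mul_le_mul_of_nonneg_left h3 (by positivity)
  linarith

theorem cyc_smul (t : ℝ) (v : P.W) (z : P.Z) : cyc P (t • v) z = t * cyc P v z := by
  unfold cyc
  rw [Finset.mul_sum]
  refine Finset.sum_congr rfl fun i _ => ?_
  split_ifs <;> simp

theorem smul_Dom {t : ℝ} (ht : 0 < t) {v : P.W} (hv : v ∈ Dom P) : t • v ∈ Dom P := by
  intro z
  rw [cyc_smul]
  exact mul_neg_of_pos_of_neg ht (hv z)

theorem pr_zero (n : ℕ) (z : P.Z) : pr (0 : P.W) n z = 1 := by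
  rw [pr_eq]
  simp

/-- `Λ` tends to zero at the origin -/
theorem rLam_small (v : P.W) (hv : v ∈ Dom P) {ε : ℝ} (hε : 0 < ε) :
    ∃ t : ℝ, 0 < t ∧ ∀ p, rLam (t • v) p < ε := by
  have key : ∀ p : V, ∀ᶠ t : ℝ in nhdsWithin 0 (Set.Ioi 0), rLam (t • v) p < ε := by
    intro p
    let g : ℝ → ℝ := fun t => Real.exp ((t • v).1 (Sum.inl p)) *
      ((1 - pr (t • v) (per P) (Sum.inl p)) * (1 - pr (t • v) (per P) (Zk (Sum.inl p)))) /
      (su (t • v) (per P) (Sum.inl p) * su (t • v) (per P) (Zk (Sum.inl p)))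
    have c0 : Continuous fun t : ℝ => t • v := continuous_id.smul continuous_const
    have hg : Continuous g := by
      refine Continuous.div ?_ ?_ ?_
      · refine (Real.continuous_exp.comp ((cd_fst _).continuous.comp c0)).mul ?_
        exact (continuous_const.sub ((cd_pr _ _).continuous.comp c0)).mul
          (continuous_const.sub ((cd_pr _ _).continuous.comp c0))
      · exact ((cd_su _ _).continuous.comp c0).mul ((cd_su _ _).continuous.comp c0)
      · intro t
        exact (mul_pos (su_pos _ _) (su_pos _ _)).ne'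
    have hg0 : g 0 = 0 := by
      simp only [g, zero_smul, pr_zero]
      simp
    have h1 : ∀ᶠ t in nhds (0 : ℝ), g t < ε := by
      have := hg.tendsto 0
      rw [hg0] at this
      exact this.eventually (gt_mem_nhds hε)
    refine (h1.filter_mono nhdsWithin_le_nhds).mp ?_
    filter_upwards [self_mem_nhdsWithin] with t ht hgt
    have hd := smul_Dom (show 0 < t from ht) hv
    have e : rLam (t • v) p = g t := by
      unfold rLam rLamZ rE
      simp only [g]
      have := one_sub_pr hd (Sum.inl p)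
      have := one_sub_pr hd (Zk (Sum.inl p))
      have := su_pos (t • v) (Sum.inl p)
      have := su_pos (t • v) (Zk (Sum.inl p))
      field_simp
    rw [e]
    exact hgt
  have h2 : ∀ᶠ t : ℝ in nhdsWithin 0 (Set.Ioi 0), ∀ p : V, rLam (t • v) p < ε :=
    Filter.eventually_all.2 key
  obtain ⟨t, h3, h4⟩ := (h2.and self_mem_nhdsWithin).exists
  exact ⟨t, h4, h3⟩

/-- piece REF -/
theorem ref (hA : S_GA P) (hB : S_GB P) (hl : S_LIN1 P) (hS : S_SURJ P) (hD : S_DOM P) :
    S_REF P := by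
  intro B
  obtain ⟨-, -, v, hv0, hv⟩ := hD
  obtain ⟨t, ht, h1⟩ := rLam_small v hv (ε := 4 * Real.exp (-B)) (by positivity)
  obtain ⟨m, hm⟩ := hS (t • v) ((W0 P).smul_mem t hv0) (smul_Dom ht hv)
  refine ⟨m, fun p => ?_⟩
  have h2 := Lam_ge (hA m) (P.rho p)
  rw [P.rho_rho, ← rLam_lin (hA m) (hB m (hA m)) hl, hm] at h2
  have h3 := h1 (P.rho p)
  have h4 : Real.exp (-(m.y p)) < Real.exp (-B) := by linarith
  have := Real.exp_lt_exp.1 h4
  linarith

end Run7.h590.MC
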