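import Pool.Agent.Run7.h713.MC.CAL

/-! Abstract part of piece APR (project MC, helper568, MP_a29257_gt). -/

namespace Run7.h590.MC

open Filter Topology Run7.h713.MC.CAL

variable {E W : Type*} [NormedAddCommGroup E] [NormedSpace ℝ E]
  [FiniteDimensional ℝ E] [NormedAddCommGroup W] [NormedSpace ℝ W] [FiniteDimensional ℝ W]

/-- the bracket of two paths -/
noncomputable def Br2 (Om : W →L[ℝ] W →L[ℝ] ℝ) (z z' : E → W) (S S' : E → ℝ) (δ : W)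
    (σ σ' : ℝ → E) (t : ℝ) : ℝ :=
  Om (z (σ t)) (z' (σ' t)) + S' (σ' t) - S (σ t) - Om (z' (σ' t) - z (σ t)) δ

/-- velocity of a path in `W0` with prescribed derivative of `Q` -/
theorem vel (W0 : Submodule ℝ W) (Q : W →L[ℝ] (E →L[ℝ] ℝ)) (f : ℝ → W) (f' : W) (t : ℝ)
    (ht : t ∈ Set.Icc (0 : ℝ) 1) (hf : HasDerivAt f f' t) (hW : ∀ s, f s ∈ W0)
    (c : E →L[ℝ] ℝ) (hQ : ∀ s ∈ Set.Icc (0 : ℝ) 1, Q (f s) = c) : f' ∈ W0 ∧ Q f' = 0 := by
  have hu : UniqueDiffWithinAt ℝ (Set.Icc (0 : ℝ) 1) t := uniqueDiffOn_Icc (by norm_num) t ht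
  refine ⟨deriv_mem W0 hf hW, ?_⟩
  have h2 : HasDerivWithinAt (fun t : ℝ => Q (f t)) (Q f') (Set.Icc 0 1) t :=
    Q.hasFDerivAt.comp_hasDerivWithinAt t hf.hasDerivWithinAt
  have h3 : HasDerivWithinAt (fun t : ℝ => Q (f t)) (0 : E →L[ℝ] ℝ) (Set.Icc 0 1) t :=
    (hasDerivWithinAt_const (𝕜 := ℝ) t (Set.Icc (0 : ℝ) 1) c).congr (fun s hs => hQ s hs)
      (hQ t ht)
  exact hu.eq_deriv _ h2 h3

section

variable (Om : W →L[ℝ] W →L[ℝ] ℝ) (W0 : Submodule ℝ W)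
    (Q : W →L[ℝ] (E →L[ℝ] ℝ)) (z z' : E → W)
    (halt : ∀ u, Om u u = 0)
    (hker : ∀ u ∈ W0, ∀ v ∈ W0, Q u = 0 → Q v = 0 → Om u v = 0)
    (hz : Differentiable ℝ z) (hz' : Differentiable ℝ z') (hzW : ∀ τ, z τ ∈ W0)
    (hzW' : ∀ τ, z' τ ∈ W0)
    (S S' : E → ℝ)
    (hS : ∀ τ, ∃ L : E →L[ℝ] ℝ, HasFDerivAt S L τ ∧ ∀ c, L c = Om (fderiv ℝ z τ c) (z τ))
    (hS' : ∀ τ, ∃ L : E →L[ℝ] ℝ, HasFDerivAt S' L τ ∧ ∀ c, L c = Om (fderiv ℝ z' τ c) (z' τ))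

include halt in
theorem anti (u v : W) : Om u v = - Om v u := by
  have h1 := halt (u + v)
  simp only [map_add, _root_.add_apply, halt] at h1
  linarith

include halt hker hz hz' hzW hzW' hS hS' in
/-- the derivative of the bracket -/
theorem dBr2 (δ : W) (hδ : δ ∈ W0) (σ σ' : ℝ → E)
    (hσ : ∀ t ∈ Set.Icc (0 : ℝ) 1, DifferentiableAt ℝ σ t)
    (hσ' : ∀ t ∈ Set.Icc (0 : ℝ) 1, DifferentiableAt ℝ σ' t)
    (hQ : ∀ t ∈ Set.Icc (0 : ℝ) 1, Q (z' (σ' t) - z (σ t)) = Q δ) :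
    ∀ t ∈ Set.Icc (0 : ℝ) 1, HasDerivAt (Br2 Om z z' S S' δ σ σ')
      (2 * Om (fderiv ℝ z (σ t) (deriv σ t)) (z' (σ' t) - z (σ t))) t := by
  intro t ht
  have dz : HasDerivAt (fun t : ℝ => z (σ t)) (fderiv ℝ z (σ t) (deriv σ t)) t :=
    (hz (σ t)).hasFDerivAt.comp_hasDerivAt t (hσ t ht).hasDerivAt
  have dz' : HasDerivAt (fun t : ℝ => z' (σ' t)) (fderiv ℝ z' (σ' t) (deriv σ' t)) t :=
    (hz' (σ' t)).hasFDerivAt.comp_hasDerivAt t (hσ' t ht).hasDerivAt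
  have dS : HasDerivAt (fun t : ℝ => S (σ t)) (Om (fderiv ℝ z (σ t) (deriv σ t)) (z (σ t))) t := by
    obtain ⟨L, hL, hLc⟩ := hS (σ t)
    rw [← hLc]
    exact hL.comp_hasDerivAt t (hσ t ht).hasDerivAt
  have dS' : HasDerivAt (fun t : ℝ => S' (σ' t))
      (Om (fderiv ℝ z' (σ' t) (deriv σ' t)) (z' (σ' t))) t := by
    obtain ⟨L, hL, hLc⟩ := hS' (σ' t)
    rw [← hLc]
    exact hL.comp_hasDerivAt t (hσ' t ht).hasDerivAt
  obtain ⟨k1, k2⟩ := vel W0 Q (fun t => z' (σ' t) - z (σ t)) _ t ht (dz'.sub dz)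
    (fun s => W0.sub_mem (hzW' _) (hzW _)) (Q δ) hQ
  have h1 : HasDerivAt (fun t : ℝ => Om (z (σ t)) (z' (σ' t)))
      (Om (fderiv ℝ z (σ t) (deriv σ t)) (z' (σ' t)) +
        Om (z (σ t)) (fderiv ℝ z' (σ' t) (deriv σ' t))) t := by
    have h2 : HasDerivAt (fun t : ℝ => Om (z (σ t))) (Om (fderiv ℝ z (σ t) (deriv σ t))) t :=
      Om.hasFDerivAt.comp_hasDerivAt t dz
    exact h2.clm_apply dz'
  have h3 : HasDerivAt (fun t : ℝ => Om (z' (σ' t) - z (σ t)) δ)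
      (Om (fderiv ℝ z' (σ' t) (deriv σ' t) - fderiv ℝ z (σ t) (deriv σ t)) δ) t := by
    have h4 : HasDerivAt (fun t : ℝ => (Om.flip δ) (z' (σ' t) - z (σ t)))
        ((Om.flip δ) (fderiv ℝ z' (σ' t) (deriv σ' t) - fderiv ℝ z (σ t) (deriv σ t))) t :=
      (Om.flip δ).hasFDerivAt.comp_hasDerivAt t (dz'.sub dz)
    exact h4
  have h5 := ((h1.add dS').sub dS).sub h3
  have h6 : Om (fderiv ℝ z' (σ' t) (deriv σ' t) - fderiv ℝ z (σ t) (deriv σ t))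
      ((z' (σ' t) - z (σ t)) - δ) = 0 := by
    apply hker _ k1 _ _ k2
    · rw [map_sub Q (z' (σ' t) - z (σ t)), hQ t ht, sub_self]
    · exact W0.sub_mem (W0.sub_mem (hzW' _) (hzW _)) hδ
  refine h5.congr_deriv ?_
  rw [map_sub (Om (fderiv ℝ z' (σ' t) (deriv σ' t) - fderiv ℝ z (σ t) (deriv σ t))) _ δ] at h6
  have h7 : Om (fderiv ℝ z' (σ' t) (deriv σ' t) - fderiv ℝ z (σ t) (deriv σ t)) δ =
    Om (fderiv ℝ z' (σ' t) (deriv σ' t) - fderiv ℝ z (σ t) (deriv σ t))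
      (z' (σ' t) - z (σ t)) := by
    linarith
  rw [h7]
  simp only [map_sub, _root_.sub_apply]
  rw [anti Om halt (z (σ t)) (fderiv ℝ z' (σ' t) (deriv σ' t))]
  ring

include halt hker hz hz' hzW hzW' hS hS' in
/-- Comparison of two pairs of paths with the same endpoints. -/
theorem compare (e : W) (he : e ∈ W0) (b : E) (s h h' : ℝ) (hs : 0 < s)
    (hle : ∀ τ σ, Om (fderiv ℝ z τ b) (z' σ - z τ) ≤ h' - h)
    (σ' ρ ρ' : ℝ → E)
    (hσ' : ∀ t ∈ Set.Icc (0 : ℝ) 1, DifferentiableAt ℝ σ' t)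
    (hρ : ∀ t ∈ Set.Icc (0 : ℝ) 1, DifferentiableAt ℝ ρ t)
    (hρ' : ∀ t ∈ Set.Icc (0 : ℝ) 1, DifferentiableAt ℝ ρ' t)
    (r0 : ρ 0 = 0) (r1 : ρ 1 = s • b) (r0' : ρ' 0 = σ' 0) (r1' : ρ' 1 = σ' 1)
    (hend : z 0 - z (s • b) = s • e)
    (hQ : ∀ t ∈ Set.Icc (0 : ℝ) 1, Q (z' (σ' t) - z (t • (s • b))) = Q (z' (σ' 0) - z 0))
    (hQ' : ∀ t ∈ Set.Icc (0 : ℝ) 1, Q (z' (ρ' t) - z (ρ t)) = Q (z' (σ' 0) - z 0))
    (hQe : ∀ t ∈ Set.Icc (0 : ℝ) 1, Q (z (ρ t) + (t * s) • e) = Q (z 0)) :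
    ∃ t ∈ Set.Icc (0 : ℝ) 1, Om e (z (ρ t)) + h ≤ Om e (z' (ρ' t)) + h' := by
  by_contra hc
  push Not at hc
  set δ := z' (σ' 0) - z 0 with hδ
  have hδW : δ ∈ W0 := W0.sub_mem (hzW' _) (hzW _)
  have m0 : (0 : ℝ) ∈ Set.Icc (0 : ℝ) 1 := by simp
  have m1 : (1 : ℝ) ∈ Set.Icc (0 : ℝ) 1 := by simp
  -- first pair
  have hlin : ∀ t : ℝ, HasDerivAt (fun t : ℝ => t • (s • b)) (s • b) t := by
    intro t
    simpa using (hasDerivAt_id t).smul_const (s • b)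
  have d1 := dBr2 Om W0 Q z z' halt hker hz hz' hzW hzW' S S' hS hS' δ hδW
    (fun t => t • (s • b)) σ' (fun t _ => (hlin t).differentiableAt) hσ' hQ
  have d1' : ∀ t ∈ Set.Icc (0 : ℝ) 1,
      HasDerivAt (fun t => 2 * s * (h' - h) * t - Br2 Om z z' S S' δ (fun t => t • (s • b)) σ' t)
      (2 * s * (h' - h) - 2 * Om (fderiv ℝ z (t • (s • b)) (s • b))
        (z' (σ' t) - z (t • (s • b)))) t := by
    intro t ht
    have h1 : HasDerivAt (fun t : ℝ => 2 * s * (h' - h) * t) (2 * s * (h' - h)) t := by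
      simpa using (hasDerivAt_id t).const_mul (2 * s * (h' - h))
    have h2 := d1 t ht
    rw [(hlin t).deriv] at h2
    exact h1.sub h2
  have hmono : MonotoneOn
      (fun t => 2 * s * (h' - h) * t - Br2 Om z z' S S' δ (fun t => t • (s • b)) σ' t)
      (Set.Icc (0 : ℝ) 1) := by
    refine monotoneOn_of_deriv_nonneg (convex_Icc 0 1)
      (fun t ht => (d1' t ht).continuousAt.continuousWithinAt) (fun t ht => ?_) (fun t ht => ?_)
    · rw [interior_Icc] at ht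
      exact (d1' t (Set.Ioo_subset_Icc_self ht)).differentiableAt.differentiableWithinAt
    · rw [interior_Icc] at ht
      rw [(d1' t (Set.Ioo_subset_Icc_self ht)).deriv, map_smul, map_smul, _root_.smul_apply,
        smul_eq_mul]
      have := mul_le_mul_of_nonneg_left (hle (t • (s • b)) (σ' t)) hs.le
      linarith
  have h01 := hmono m0 m1 (by norm_num)
  -- second pair
  have d2 := dBr2 Om W0 Q z z' halt hker hz hz' hzW hzW' S S' hS hS' δ hδW ρ ρ' hρ hρ' hQ'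
  have d2' : ∀ t ∈ Set.Icc (0 : ℝ) 1,
      HasDerivAt (fun t => Br2 Om z z' S S' δ ρ ρ' t - 2 * Om (z (ρ t) + (t * s) • e) δ)
      (-(2 * s) * Om e (z' (ρ' t) - z (ρ t))) t := by
    intro t ht
    have dz : HasDerivAt (fun t : ℝ => z (ρ t)) (fderiv ℝ z (ρ t) (deriv ρ t)) t :=
      (hz (ρ t)).hasFDerivAt.comp_hasDerivAt t (hρ t ht).hasDerivAt
    have de : HasDerivAt (fun t : ℝ => (t * s) • e) (s • e) t := by
      have h1 : HasDerivAt (fun t : ℝ => t * s) s t := by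
        simpa using (hasDerivAt_id t).mul_const s
      exact h1.smul_const e
    have dy : HasDerivAt (fun t : ℝ => z (ρ t) + (t * s) • e)
      (fderiv ℝ z (ρ t) (deriv ρ t) + s • e) t := dz.add de
    obtain ⟨k1, k2⟩ := vel W0 Q (fun t => z (ρ t) + (t * s) • e) _ t ht dy
      (fun s' => W0.add_mem (hzW _) (W0.smul_mem _ he)) (Q (z 0)) hQe
    have dO : HasDerivAt (fun t : ℝ => Om (z (ρ t) + (t * s) • e) δ)
        (Om (fderiv ℝ z (ρ t) (deriv ρ t) + s • e) δ) t :=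
      (Om.flip δ).hasFDerivAt.comp_hasDerivAt t dy
    have h6 : Om (fderiv ℝ z (ρ t) (deriv ρ t) + s • e) ((z' (ρ' t) - z (ρ t)) - δ) = 0 := by
      apply hker _ k1 _ _ k2
      · rw [map_sub Q (z' (ρ' t) - z (ρ t)), hQ' t ht, sub_self]
      · exact W0.sub_mem (W0.sub_mem (hzW' _) (hzW _)) hδW
    refine ((d2 t ht).sub (dO.const_mul 2)).congr_deriv ?_
    rw [map_sub (Om (fderiv ℝ z (ρ t) (deriv ρ t) + s • e)) _ δ] at h6
    have h7 : Om (fderiv ℝ z (ρ t) (deriv ρ t) + s • e) δ =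
      Om (fderiv ℝ z (ρ t) (deriv ρ t) + s • e) (z' (ρ' t) - z (ρ t)) := by linarith
    rw [h7, map_add, map_smul, _root_.add_apply, _root_.smul_apply, smul_eq_mul]
    ring
  have hmono2 : MonotoneOn
      (fun t => Br2 Om z z' S S' δ ρ ρ' t - 2 * Om (z (ρ t) + (t * s) • e) δ -
        2 * s * (h' - h) * t) (Set.Icc (0 : ℝ) 1) ∧
      (Br2 Om z z' S S' δ ρ ρ' 0 - 2 * Om (z (ρ 0) + ((0 : ℝ) * s) • e) δ -
        2 * s * (h' - h) * 0 <
      Br2 Om z z' S S' δ ρ ρ' 1 - 2 * Om (z (ρ 1) + ((1 : ℝ) * s) • e) δ -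
        2 * s * (h' - h) * 1) := by
    have hd : ∀ t ∈ Set.Icc (0 : ℝ) 1, HasDerivAt
        (fun t => Br2 Om z z' S S' δ ρ ρ' t - 2 * Om (z (ρ t) + (t * s) • e) δ -
          2 * s * (h' - h) * t)
        (-(2 * s) * Om e (z' (ρ' t) - z (ρ t)) - 2 * s * (h' - h)) t := by
      intro t ht
      have h1 : HasDerivAt (fun t : ℝ => 2 * s * (h' - h) * t) (2 * s * (h' - h)) t := by
        simpa using (hasDerivAt_id t).const_mul (2 * s * (h' - h))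
      exact (d2' t ht).sub h1
    have hpos : ∀ t ∈ Set.Icc (0 : ℝ) 1,
        0 < -(2 * s) * Om e (z' (ρ' t) - z (ρ t)) - 2 * s * (h' - h) := by
      intro t ht
      have h1 := hc t ht
      rw [map_sub]
      nlinarith
    have hst : StrictMonoOn
      (fun t => Br2 Om z z' S S' δ ρ ρ' t - 2 * Om (z (ρ t) + (t * s) • e) δ -
        2 * s * (h' - h) * t) (Set.Icc (0 : ℝ) 1) := by
      refine strictMonoOn_of_deriv_pos (convex_Icc 0 1)
        (fun t ht => (hd t ht).continuousAt.continuousWithinAt) (fun t ht => ?_)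
      rw [interior_Icc] at ht
      rw [(hd t (Set.Ioo_subset_Icc_self ht)).deriv]
      exact hpos t (Set.Ioo_subset_Icc_self ht)
    exact ⟨hst.monotoneOn, hst m0 m1 (by norm_num)⟩
  have h2 := hmono2.2
  have e1 : Br2 Om z z' S S' δ ρ ρ' 0 = Br2 Om z z' S S' δ (fun t => t • (s • b)) σ' 0 := by
    unfold Br2
    simp only [r0, r0', zero_smul]
  have e2 : Br2 Om z z' S S' δ ρ ρ' 1 = Br2 Om z z' S S' δ (fun t => t • (s • b)) σ' 1 := by
    unfold Br2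
    simp only [r1, r1', one_smul]
  have e3 : z (ρ 1) + ((1 : ℝ) * s) • e = z (ρ 0) + ((0 : ℝ) * s) • e := by
    rw [r0, r1, one_mul, zero_mul, zero_smul, ← hend]
    abel
  rw [e1, e2, e3] at h2
  simp only at h01
  linarith

end

end Run7.h590.MC
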