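import Pool.Agent.Run7.h568.MC.Final4
import Pool.Agent.Run7.h568.MC.Iface2
import Pool.Agent.Run7.h590.MC.APR0

/-! Piece APR (project MC, helper568, MP_a29257_gt). -/

set_option linter.unusedSectionVars false

namespace Run7.h590.MC

open Real Matrix Run7.h568.MC Run7.h568.MC.Pattern Run7.h568.MC.Asm

universe u

variable {V : Type u} [Fintype V] {P : Pattern V}

/-- bound of the box -/
noncomputable def rr (m : HypMetric P) (p0 : V) : ℝ := ∑ p, (ind P p0 : V → ℝ) p * m.y p

theorem rr_pos (m : HypMetric P) (p0 : V) : 0 < rr m p0 := by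
  apply Finset.sum_pos'
  · intro p _
    exact mul_nonneg (ind_nonneg _ _) (m.y_pos p).le
  · refine ⟨p0, Finset.mem_univ _, ?_⟩
    rw [ind_self, one_mul]
    exact m.y_pos p0

theorem inj_of_neg {E : Type*} [NormedAddCommGroup E] [NormedSpace ℝ E] (f : E → E →L[ℝ] ℝ)
    (hdiff : Differentiable ℝ f) (hneg : ∀ x c, c ≠ 0 → fderiv ℝ f x c c < 0) :
    Function.Injective f := by
  intro x x' hxx
  by_contra hne
  have hc : x - x' ≠ 0 := sub_ne_zero.2 hne
  set c := x - x' with hcdef
  have hd : ∀ t : ℝ, HasDerivAt (fun t : ℝ => f (x' + t • c) c)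
      (fderiv ℝ f (x' + t • c) c c) t := by
    intro t
    have a1 : HasDerivAt (fun t : ℝ => x' + t • c) c t := by
      have := ((hasDerivAt_id t).smul_const c).const_add x'
      simpa using this
    have a2 : HasDerivAt (fun t : ℝ => f (x' + t • c)) (fderiv ℝ f (x' + t • c) c) t := by
      have h3 := (hdiff (x' + t • c)).hasFDerivAt.comp_hasDerivAt t a1
      exact h3
    have a3 := a2.clm_apply (hasDerivAt_const t c)
    simpa using a3
  have hanti : StrictAnti (fun t : ℝ => f (x' + t • c) c) := by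
    apply strictAnti_of_deriv_neg
    intro t
    rw [(hd t).deriv]
    exact hneg _ _ hc
  have := hanti (show (0 : ℝ) < 1 by norm_num)
  simp only [one_smul, zero_smul, add_zero] at this
  rw [hcdef, add_sub_cancel, hxx] at this
  exact lt_irrefl _ this

/-- inverse of `q` on a leaf -/
theorem exists_g (hA : All P) {m : HypMetric P} (L : LeafData m) :
    ∃ g : (Inv P →L[ℝ] ℝ) → Inv P,
      (∀ y : Inv P →L[ℝ] ℝ, (∀ i, |y (ind P i)| < rr m i) →
        QE (P := P) (E := Inv P) ev (L.z (g y)) = y ∧ DifferentiableAt ℝ g y) ∧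
      ∀ τ, g (QE (P := P) (E := Inv P) ev (L.z τ)) = τ := by
  set Q := QE (P := P) (E := Inv P) ev with hQ
  have hz := z_diff hA L
  let f : Inv P → Inv P →L[ℝ] ℝ := fun x => Q (L.z x)
  have hf : ContDiff ℝ 2 f := Q.contDiff.comp (z_smooth hA L)
  have hneg : ∀ x c, c ≠ 0 → fderiv ℝ f x c c < 0 := by
    intro x c hc
    have : fderiv ℝ f x = Q.comp (fderiv ℝ L.z x) :=
      (Q.hasFDerivAt.comp x (hz x).hasFDerivAt).fderiv
    rw [this]
    exact q_neg hA L x c hc
  have hdiff : Differentiable ℝ f := hf.differentiable (by norm_num)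
  have hinj : Function.Injective f := inj_of_neg f hdiff hneg
  have hfin : Module.finrank ℝ (Inv P) = Module.finrank ℝ (Inv P →L[ℝ] ℝ) := by
    rw [← (LinearMap.toContinuousLinearMap :
      (Inv P →ₗ[ℝ] ℝ) ≃ₗ[ℝ] (Inv P →L[ℝ] ℝ)).finrank_eq]
    exact (Subspace.dual_finrank_eq (K := ℝ) (V := Inv P)).symm
  obtain ⟨g, hg⟩ := hA.inv (Inv P) (Inv P →L[ℝ] ℝ) f (Asm.box (ind P) (rr m)) hfin hf
    (by
      intro x
      rw [injective_iff_map_eq_zero]
      intro c hc
      by_contra hne
      have := hneg x c hne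
      rw [hc] at this
      simp at this)
    hinj (box_open _ _) (box_convex _ _) (fun x i => q_box hA L x i)
    (by
      intro ξ hξ
      have hfin' : ∃ η : ℝ, 0 < η ∧ ∀ i, |ξ (ind P i)| < rr m i - η := by
        rcases isEmpty_or_nonempty V with hemp | hne
        · exact ⟨1, one_pos, fun i => (hemp.false i).elim⟩
        · obtain ⟨i0, hi0⟩ := Finite.exists_min (fun i => rr m i - |ξ (ind P i)|)
          have h1 := hξ i0
          refine ⟨(rr m i0 - |ξ (ind P i0)|) / 2, by linarith, fun i => ?_⟩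
          have := hi0 i
          linarith
      obtain ⟨η, hη, hη'⟩ := hfin'
      obtain ⟨C, hC⟩ := q_proper hA L η hη
      refine ⟨Asm.box (ind P) (fun i => rr m i - η),
        (box_open _ _).mem_nhds (fun i => hη' i), C, fun x hx => ?_⟩
      exact hC x (fun i => (hx i).le))
  refine ⟨g, fun y hy => hg y (fun i => hy i), fun τ => ?_⟩
  apply hinj
  exact (hg _ (fun i => q_box hA L τ i)).1

theorem zero_mem (a : V → ℝ) (h1 : ∀ p, a (P.rho p) = a p) (h2 : ∀ p, a (P.A p) = a p) :
    ((0, a) : P.W) ∈ W0 P := by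
  have h3 : ∀ p, lad (P := P) (0 : P.Z → ℝ) p = 0 := by
    intro p
    unfold lad
    split_ifs <;> simp
  refine ⟨fun z => rfl, fun z _ => rfl, h1, fun p => ?_⟩
  change a (P.A p) - a p = lad (0 : P.Z → ℝ) p - lad (0 : P.Z → ℝ) (P.iota p)
  rw [h3, h3, h2, sub_self, sub_self]

/-- piece APR -/
theorem apr (hA : All P) (hR : S_REF P) : S_APR P := by
  intro a b ha harho haA hbI hb
  set e : P.W := (0, a) with he
  have heW : e ∈ W0 P := zero_mem a harho haA
  obtain ⟨m', hm'⟩ := hR (∑ p, a p)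
  obtain ⟨L'⟩ := exists_leafData hA m'
  obtain ⟨g', hg', -⟩ := exists_g hA L'
  set Q := QE (P := P) (E := Inv P) ev with hQ
  -- the values of `Q e`
  have hQe : ∀ i, Q e (ind P i) = ∑ p, (ind P i : V → ℝ) p * a p := by
    intro i
    rw [hQ, QE_apply]
    refine Finset.sum_congr rfl fun p _ => ?_
    rw [ev_apply, he]
    simp
  have hQ0 : ∀ i, 0 ≤ Q e (ind P i) := by
    intro i
    rw [hQe]
    exact Finset.sum_nonneg fun p _ => mul_nonneg (ind_nonneg _ _) (ha p).le
  have hQ1 : ∀ i, Q e (ind P i) ≤ rr m' i := by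
    intro i
    rw [hQe]
    refine Finset.sum_le_sum fun p _ => mul_le_mul_of_nonneg_left ?_ (ind_nonneg _ _)
    have h1 : a p ≤ ∑ p, a p :=
      Finset.single_le_sum (fun q _ => (ha q).le) (Finset.mem_univ p)
    exact h1.trans (hm' p).le
  obtain ⟨η, hη, hη'⟩ : ∃ η : ℝ, 0 < η ∧ ∀ i, η ≤ rr m' i / 2 := by
    rcases isEmpty_or_nonempty V with hemp | hne
    · exact ⟨1, one_pos, fun i => (hemp.false i).elim⟩
    · obtain ⟨i0, hi0⟩ := Finite.exists_min (fun i => rr m' i)
      refine ⟨rr m' i0 / 2, by linarith [rr_pos m' i0], fun i => ?_⟩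
      have := hi0 i
      linarith
  obtain ⟨C, hC⟩ := q_proper hA L' η hη
  have hcont : Continuous fun τ : Inv P => OmC e (L'.z τ) :=
    (OmC e).continuous.comp (z_smooth hA L').continuous
  obtain ⟨K0, hK0⟩ := (isCompact_closedBall (0 : Inv P) C).exists_bound_of_continuousOn
    hcont.continuousOn
  refine ⟨K0 + ∑ p, b p * m'.y p, ?_⟩
  intro l r s hs hs1 hq hl
  obtain ⟨L⟩ := exists_leafData hA l
  obtain ⟨g, hg, hgi⟩ := exists_g hA L
  set b' : Inv P := ⟨b, hbI⟩ with hb'
  have hr : r = L.F (s • b') := L.quake r (s • b') hq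
  have hz0 : L.z 0 = l.lin := by unfold LeafData.z; rw [L.zero]
  have hz1 : L.z (s • b') = r.lin := by unfold LeafData.z; rw [← hr]
  have hend : L.z 0 - L.z (s • b') = s • e := by
    rw [hz0, hz1, hl]
    refine Prod.ext ?_ ?_
    · change r.lZ - r.lZ = s • (0 : P.Z → ℝ)
      simp
    · funext p
      change r.w p + s * a p - r.w p = s * a p
      ring
  have hQend : Q (L.z 0) - Q (L.z (s • b')) = s • Q e := by
    rw [← map_sub, hend, map_smul]
  -- monotonicity along the first path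
  have hdz := z_diff hA L
  have hpath : ∀ t ∈ Set.Icc (0 : ℝ) 1, ∀ i,
      Q (L.z (s • b')) (ind P i) ≤ Q (L.z (t • (s • b'))) (ind P i) ∧
      Q (L.z (t • (s • b'))) (ind P i) ≤ Q (L.z 0) (ind P i) := by
    intro t ht i
    have hd2 : ∀ t : ℝ, HasDerivAt (fun t : ℝ => Q (L.z (t • (s • b'))) (ind P i))
        (Q (fderiv ℝ L.z (t • (s • b')) (s • b')) (ind P i)) t := by
      intro t
      have a1 : HasDerivAt (fun t : ℝ => t • (s • b')) (s • b') t := by
        simpa using (hasDerivAt_id t).smul_const (s • b')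
      have a2 : HasDerivAt (fun t : ℝ => L.z (t • (s • b')))
          (fderiv ℝ L.z (t • (s • b')) (s • b')) t := by
        have h3 := (hdz (t • (s • b'))).hasFDerivAt.comp_hasDerivAt t a1
        exact h3
      have a3 : HasDerivAt (fun t : ℝ => Q (L.z (t • (s • b'))))
          (Q (fderiv ℝ L.z (t • (s • b')) (s • b'))) t := Q.hasFDerivAt.comp_hasDerivAt t a2
      simpa using a3.clm_apply (hasDerivAt_const t (ind P i))
    have hanti : Antitone fun t : ℝ => Q (L.z (t • (s • b'))) (ind P i) := by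
      refine antitone_of_deriv_nonpos (fun t => (hd2 t).differentiableAt) fun t => ?_
      rw [(hd2 t).deriv]
      refine q_nonpos hA L _ (s • b') (ind P i) (fun p => ?_) (ind_nonneg i)
      exact mul_nonneg hs.le (hb p)
    have u1 := hanti ht.1
    have u2 := hanti ht.2
    simp only [zero_smul, one_smul] at u1 u2
    exact ⟨u2, u1⟩
  have hends : ∀ i, Q (L.z 0) (ind P i) - Q (L.z (s • b')) (ind P i) = s * Q e (ind P i) := by
    intro i
    have := congrArg (fun ξ : Inv P →L[ℝ] ℝ => ξ (ind P i)) hQend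
    simpa using this
  have hsQ : ∀ i, s * Q e (ind P i) ≤ Q e (ind P i) := by
    intro i
    have := mul_le_mul_of_nonneg_right hs1 (hQ0 i)
    linarith
  -- first path for `m'`
  let ξ : ℝ → (Inv P →L[ℝ] ℝ) := fun t => Q (L.z (t • (s • b'))) - Q (L.z 0) + (s / 2) • Q e
  have hξb : ∀ t ∈ Set.Icc (0 : ℝ) 1, ∀ i, |ξ t (ind P i)| < rr m' i := by
    intro t ht i
    obtain ⟨u1, u2⟩ := hpath t ht i
    have e1 : ξ t (ind P i) = Q (L.z (t • (s • b'))) (ind P i) - Q (L.z 0) (ind P i) +
        s / 2 * Q e (ind P i) := by simp [ξ]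
    rw [e1, abs_lt]
    have h1 := hends i
    have h2 := hsQ i
    have h3 := hQ1 i
    have h4 := rr_pos m' i
    have h5 := hQ0 i
    constructor
    · linarith
    · linarith
  have hξd : ∀ t : ℝ, DifferentiableAt ℝ ξ t := by
    intro t
    have a1 : HasDerivAt (fun t : ℝ => t • (s • b')) (s • b') t := by
      simpa using (hasDerivAt_id t).smul_const (s • b')
    have a2 : HasDerivAt (fun t : ℝ => L.z (t • (s • b')))
        (fderiv ℝ L.z (t • (s • b')) (s • b')) t := by
      have h3 := (hdz (t • (s • b'))).hasFDerivAt.comp_hasDerivAt t a1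
      exact h3
    exact (((Q.hasFDerivAt.comp_hasDerivAt t a2).sub_const _).add_const _).differentiableAt
  -- second path for `m'`
  let ζ : ℝ → (Inv P →L[ℝ] ℝ) := fun t => (s / 2 - t * s) • Q e
  have hζb' : ∀ t ∈ Set.Icc (0 : ℝ) 1, ∀ i, |ζ t (ind P i)| ≤ rr m' i / 2 := by
    intro t ht i
    have e1 : ζ t (ind P i) = (s / 2 - t * s) * Q e (ind P i) := by simp [ζ]
    have h0 := hQ0 i
    have h1 := hQ1 i
    have h2 : |s / 2 - t * s| ≤ 1 / 2 := by
      rw [abs_le]
      have := mul_nonneg ht.1 hs.le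
      have := mul_le_mul_of_nonneg_right ht.2 hs.le
      constructor
      · linarith
      · linarith
    rw [e1, abs_mul, abs_of_nonneg h0]
    have h3 := mul_le_mul_of_nonneg_right h2 h0
    linarith
  have hζb : ∀ t ∈ Set.Icc (0 : ℝ) 1, ∀ i, |ζ t (ind P i)| < rr m' i := by
    intro t ht i
    have := hζb' t ht i
    have := rr_pos m' i
    linarith
  have hζd : ∀ t : ℝ, DifferentiableAt ℝ ζ t := by
    intro t
    exact ((((differentiableAt_id).mul_const s).const_sub (s / 2)).smul_const (Q e))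
  -- second path for `l`
  let χ : ℝ → (Inv P →L[ℝ] ℝ) := fun t => Q (L.z 0) - (t * s) • Q e
  have hχb : ∀ t ∈ Set.Icc (0 : ℝ) 1, ∀ i, |χ t (ind P i)| < rr l i := by
    intro t ht i
    have e1 : χ t (ind P i) = Q (L.z 0) (ind P i) - t * s * Q e (ind P i) := by simp [χ]
    have v1 := q_box hA L 0 i
    have v2 := q_box hA L (s • b') i
    change |Q (L.z 0) (ind P i)| < rr l i at v1
    change |Q (L.z (s • b')) (ind P i)| < rr l i at v2
    have h1 := hends i
    have h2 : 0 ≤ s * Q e (ind P i) := mul_nonneg hs.le (hQ0 i)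
    have h3 := mul_nonneg ht.1 h2
    have h4 := mul_le_mul_of_nonneg_right ht.2 h2
    rw [abs_lt] at v1 v2
    rw [e1, abs_lt]
    constructor
    · linarith
    · linarith
  have hχd : ∀ t : ℝ, DifferentiableAt ℝ χ t := by
    intro t
    exact ((((differentiableAt_id).mul_const s).smul_const (Q e))).const_sub _
  obtain ⟨S, hS⟩ := Run7.h713.MC.CAL.potential OmC L.z (z_smooth hA L) (lag hA L)
  obtain ⟨S', hS'⟩ := Run7.h713.MC.CAL.potential OmC L'.z (z_smooth hA L') (lag hA L')
  have hξ0 : ξ 0 = (s / 2) • Q e := by simp [ξ]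
  have hξ1 : ξ 1 = (s / 2 - s) • Q e := by
    simp only [ξ, one_smul]
    rw [← neg_sub (Q (L.z 0)), hQend]
    module
  have m0 : (0 : ℝ) ∈ Set.Icc (0 : ℝ) 1 := by simp
  obtain ⟨t, ht, hfin⟩ := compare OmC (W0 P) Q L.z L'.z (fun u => Om_self u)
    (fun u hu v hv h1 h2 => hA.iso u hu v hv
      (fun c hc => by
        have := congrArg (fun ξ => ξ (⟨c, hc⟩ : Inv P)) h1
        simpa [hQ, QE_apply, ev_apply] using this)
      (fun c hc => by
        have := congrArg (fun ξ => ξ (⟨c, hc⟩ : Inv P)) h2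
        simpa [hQ, QE_apply, ev_apply] using this))
    hdz (z_diff hA L') (z_W0 hA L) (z_W0 hA L') S S' hS hS' e heW b' s
    (∑ p, b p * l.y p) (∑ p, b p * m'.y p) hs
    (fun τ σ => (om_le hA L b' hb τ (L'.F σ)).trans (le_of_eq (by rw [z_y hA L'])))
    (fun t => g' (ξ t)) (fun t => g (χ t)) (fun t => g' (ζ t))
    (fun t ht => ((hg' _ (hξb t ht)).2).comp t (hξd t))
    (fun t ht => ((hg _ (hχb t ht)).2).comp t (hχd t))
    (fun t ht => ((hg' _ (hζb t ht)).2).comp t (hζd t))
    (by simp only [χ, zero_mul, zero_smul, sub_zero]; exact hgi 0)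
    (by
      simp only [χ, one_mul]
      rw [← hQend, sub_sub_cancel]
      exact hgi _)
    (by simp only [ζ, hξ0, zero_mul, sub_zero])
    (by simp only [ζ, hξ1, one_mul])
    hend
    (fun t ht => by
      rw [map_sub, map_sub, (hg' _ (hξb t ht)).1, (hg' _ (hξb 0 m0)).1, hξ0]
      simp only [ξ]
      abel)
    (fun t ht => by
      rw [map_sub, map_sub, (hg' _ (hζb t ht)).1, (hg _ (hχb t ht)).1, (hg' _ (hξb 0 m0)).1, hξ0]
      simp only [ζ, χ]
      module)
    (fun t ht => by
      rw [map_add, map_smul, (hg _ (hχb t ht)).1]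
      simp only [χ]
      abel)
  refine ⟨L.F (g (χ t)), fun p => -((g (χ t) : Inv P) : V → ℝ) p, ?_, ?_⟩
  · obtain ⟨m'', h1, h2⟩ := hA.leaf l _ _ (g (χ t)).2 (L.rel (g (χ t))).isA
    have h3 := hA.leafu.2.1 _ _ _ _ _ h1 (L.rel (g (χ t)))
    rw [← h3]
    exact RightQuake.swap h2
  · have hball : g' (ζ t) ∈ Metric.closedBall (0 : Inv P) C := by
      rw [mem_closedBall_zero_iff]
      refine hC _ fun i => ?_
      have h1 := (hg' _ (hζb t ht)).1
      change |Q (L'.z (g' (ζ t))) (ind P i)| ≤ rr m' i - η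
      rw [h1]
      have := hζb' t ht i
      have := hη' i
      linarith
    have hb1 := hK0 _ hball
    rw [Real.norm_eq_abs] at hb1
    have hb2 := (le_abs_self _).trans hb1
    have h1 : ∑ p, b p * (L.F (g (χ t))).y p = ∑ p, b p * l.y p := z_y hA L (g (χ t)) b'
    rw [h1]
    have h2 : Om (0, a) (L.F (g (χ t))).lin = OmC e (L.z (g (χ t))) := rfl
    rw [h2]
    linarith

end Run7.h590.MC
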